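import Pool.Agent.BPH.All
import Pool.Agent.Helper55_PB.BallsFin

/-!
# Convex bodies homothetic to their `i`-th projection body: only balls, for `8 i ≤ 3 n + 1`

Main statement: if `i ≥ 1` and `8 i ≤ 3 n + 1` (for example if `n ≥ 3 i`), the convex bodies in
`E^n` that are homothetic to their `i`-th projection body are exactly the Euclidean balls.
-/

open MeasureTheory Module Set
open scoped RealInnerProductSpace

namespace Pool.Agent.Results.MP_bbfd73_gt.BallsLinear

open Pool.Agent.Helper55_PB Pool.Agent.BPH

/-- If `i ≥ 1` and `8 i ≤ 3 n + 1`, a set `K` in `E^n` is a convex body homothetic to its `i`-th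
projection body if and only if it is a closed ball of positive radius. -/
theorem result (n i : ℕ) (hi : 1 ≤ i) (hn : 8 * i ≤ 3 * n + 1)
    (K : Set (EuclideanSpace ℝ (Fin n))) :
    (IsConvexBody K ∧ ∃ L : Set (EuclideanSpace ℝ (Fin n)),
      IsProjectionBodyOfOrder i K L ∧ Homothetic K L) ↔
    ∃ (x : EuclideanSpace ℝ (Fin n)) (r : ℝ), 0 < r ∧ K = Metric.closedBall x r := by
  have hfr : finrank ℝ (EuclideanSpace ℝ (Fin n)) = n := finrank_euclideanSpace_fin
  constructor
  · rintro ⟨hK, L, hL, hKL⟩
    exact ball_linear hi (by rw [hfr]; exact hn) hK hL hKL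
  · rintro ⟨x, r, hr, rfl⟩
    exact sol_of_ball (by rw [hfr]; omega) x hr

end Pool.Agent.Results.MP_bbfd73_gt.BallsLinear
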