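import Pool.Agent.Helper55_PB.MidFin

/-!
# Convex bodies homothetic to an intermediate projection body are smooth

Main statement: if `1 ≤ i ≤ n - 2` and a convex body `K` in `E^n` is homothetic to its `i`-th
projection body, then `K` is smooth: every boundary point has exactly one outer unit normal.
-/

open MeasureTheory Module Set
open scoped RealInnerProductSpace

namespace Pool.Agent.Results.MP_bbfd73_gt.IntermediateSmooth

open Pool.Agent.Helper55_PB

/-- If `1 ≤ i ≤ n - 2`, every convex body `K` in `E^n` which is homothetic to its `i`-th
projection body is smooth. -/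
theorem result (n i : ℕ) (hi : 1 ≤ i) (hin : i + 2 ≤ n) (K L : Set (EuclideanSpace ℝ (Fin n)))
    (hK : IsConvexBody K) (hL : IsProjectionBodyOfOrder i K L) (hKL : Homothetic K L) :
    IsSmoothBody K :=
  smooth_of_mid hi (by rw [finrank_euclideanSpace_fin]; exact hin) hK hL hKL

end Pool.Agent.Results.MP_bbfd73_gt.IntermediateSmooth
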