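import Pool.Agent.Helper55_PB.Ifaces

/-!
# Convex bodies homothetic to their projection body: everything except smooth bodies

Main statement: a convex body `K` in `E^n` is homothetic to its projection body if and only if, up
to a translation, it is an orthogonal direct sum of convex bodies, each of which is a segment of
length `2 t` (dimension one), or a planar body invariant under quarter turns of area `4 t^2`
(dimension two), or a smooth body of dimension at least three which is itself a solution with the
matching constant; here `2 t^2 = τ`.
-/

open MeasureTheory Module Set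
open scoped RealInnerProductSpace

namespace Pool.Agent.Results.MP_bbfd73_gt.OrthogonalSplitting

open Pool.Agent.Helper55_PB

/-- A convex body `K` in `E^n` has a projection body homothetic to `K` if and only if `K` is a
translate of an orthogonal direct sum of admissible summands: segments, planar bodies invariant
under quarter turns, and smooth solutions of dimension at least three. -/
theorem result {n : ℕ} (K : Set (EuclideanSpace ℝ (Fin n))) :
    IsSolution K ↔
      ∃ (m : ℕ) (V : Fin m → Submodule ℝ (EuclideanSpace ℝ (Fin n))) (A : ∀ i, Set (V i))
        (x₀ : EuclideanSpace ℝ (Fin n)) (τ : ℝ),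
        0 < τ ∧ (∀ i, V i ≠ ⊥) ∧ (∀ i j, i ≠ j → ∀ x ∈ V i, ∀ y ∈ V j, ⟪x, y⟫ = 0) ∧
        (⨆ i, V i = ⊤) ∧ K = orthSum V A x₀ ∧ ∀ i, IsConvexBody (A i) ∧ IsSummand (A i) τ :=
  ⟨fun h => decomposes_of_isSolution decStmt lineStmt planeGoodStmt h,
    fun h => isSolution_of_decomposes lineStmt planeStmt h⟩

end Pool.Agent.Results.MP_bbfd73_gt.OrthogonalSplitting
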