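import Pool.Agent.Helper51_REV.ASM3
import Pool.Agent.Helper55_PB.BallsFin

/-!
# Convex bodies of revolution homothetic to their `i`-th projection body

Main statement (`n ≥ 3`, `1 ≤ i ≤ n - 1`): the convex bodies of revolution in `E^n` that are homothetic
to their `i`-th projection body are the Euclidean balls and, for `i = n - 1` only, the cylinders with
one explicit ratio of height and radius.
-/

open MeasureTheory Module Set
open scoped RealInnerProductSpace

namespace Pool.Agent.Results.MP_bbfd73_gt.RevolutionBodies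

open Pool.Agent.Helper55_PB Pool.Agent.Helper28_PB Pool.Agent.BPH Pool.Agent.REV
  Pool.Agent.REV.H51

/-- Let `n ≥ 3` and `1 ≤ i ≤ n - 1`. A set of revolution `K` in `E^n` is a convex body homothetic to its
`i`-th projection body if and only if it is a closed ball of positive radius, or `i = n - 1` and `K` is
a cylinder of radius `R` and half-length `R √(κ_(n-1) / (2 κ_(n-2)))`. -/
theorem result (n i : ℕ) (h3 : 3 ≤ n) (hi : 1 ≤ i) (hin : i + 1 ≤ n)
    (K : Set (EuclideanSpace ℝ (Fin n))) (hrev : IsRevolution K) :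
    (IsConvexBody K ∧ ∃ L : Set (EuclideanSpace ℝ (Fin n)),
      IsProjectionBodyOfOrder i K L ∧ Homothetic K L) ↔
    (∃ (x : EuclideanSpace ℝ (Fin n)) (r : ℝ), 0 < r ∧ K = Metric.closedBall x r) ∨
    (i + 1 = n ∧ ∃ (x e : EuclideanSpace ℝ (Fin n)) (R : ℝ), ‖e‖ = 1 ∧ 0 < R ∧
      K = (fun y => x + y) ''
        cyl e (R * Real.sqrt (ballVol (n - 1) / (2 * ballVol (n - 2)))) R) := by
  have hfr : finrank ℝ (EuclideanSpace ℝ (Fin n)) = n := finrank_euclideanSpace_fin
  have h3' : 3 ≤ finrank ℝ (EuclideanSpace ℝ (Fin n)) := by rw [hfr]; exact h3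
  constructor
  · rintro ⟨hK, L, hL, hKL⟩
    by_cases h : i + 2 ≤ n
    · exact Or.inl (Asm.ball_rev hi (by rw [hfr]; exact h) hK hL hKL hrev)
    · have hi' : i = n - 1 := by omega
      have hL' : IsProjectionBodyOfOrder (finrank ℝ (EuclideanSpace ℝ (Fin n)) - 1) K L := by
        rw [hfr, ← hi']
        exact hL
      have := Asm.rev_top_all h3' hK hL' hKL hrev
      rw [hfr] at this
      exact this.imp id fun h' => ⟨by omega, h'⟩
  · rintro (⟨x, r, hr, rfl⟩ | ⟨h1, x, e, R, he, hR, hK⟩)
    · exact sol_of_ball (by rw [hfr]; omega) x hr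
    · have hi' : i = n - 1 := by omega
      have := Asm.sol_cyl_all h3' x e he hR (K := K) (by rw [hfr]; exact hK)
      rw [hfr, ← hi'] at this
      exact this

end Pool.Agent.Results.MP_bbfd73_gt.RevolutionBodies
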